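import Pool.Agent.K1H18.NR.Fin
import Pool.Agent.K1H18.NR.Re

/-!
# All joint moments in the non-resonant range (MP_a28cf0_nt)

The plane is `ℂ`, with the upper half plane `HH` and `dμ = dx dy / y²`.

Let `f` be an eigenfunction with spectral parameter `t → ∞` and `g_i` eigenfunctions with spectral
parameters `s_i ≥ 0`, all of them locally bounded in `L²`. If `t - ∑ a_i s_i` is large compared with
`√(t log t)`, then `∫ ψ f ∏ g_i ^ a_i dμ` decays faster than every power of `t`. For Hecke-Maass cusp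
forms this is Q1 for every number `I` of forms and all exponents, when the form of highest frequency
has exponent one and the spectral parameters do not satisfy the polygon inequality (up to the error
`√(t log t)`). No bound for the moments of the forms and no quantum unique ergodicity is used, and
there is no condition on the spectral parameters of the other forms among themselves.

Proof. Let `K_k`, `Λ_k` be the raising and lowering operators in weight `k`, and `σ_k² = t² + (k + 1/2)²`.
From `Λ_{k+1} K_k = σ_k²` on the derivatives `f_k = K_{k-1} ⋯ K_0 f` and from integration by parts one gets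
for `J(a, b) = ∫ (Λ^a ψ) (Λ^b G) f_{a+b} dμ`, `G = ∏ g_i ^ a_i`, the recursion
`J(a, b) = - (J(a + 1, b) + J(a, b + 1)) / σ_{a+b}²`. It is used until `a = M` (a constant) or
`b = m ≈ √(t log t)`. The derivatives of order `b` of a solution of parameter `s` are bounded on compact
sets by `(s + C m) ^ b`, with the constant `1` in front of `s`, up to a fixed power of `t`: the `L²` norms
of `ρ ^ (b + 1) K^b g` grow at most by the factor `s + C b` in each step, and the pointwise bounds
follow from the same bounds for the solutions `∂x g`, `(x ∂x + y ∂y) g` and so on, as these two fields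
commute with all `K_k`. So the terms with `b = m` are at most `t ^ D (1 - (t - ∑ a_i s_i) / (2 t)) ^ m`.

Pieces proved by helper1, helper4, helper10, helper26, helper33, helper38, helper39, helper52,
helper99 (`Pool.Agent.K1H18.NR`).
-/

set_option autoImplicit false
open MeasureTheory Filter Topology Complex
open scoped ContDiff

namespace Pool.Agent.Results.MP_a28cf0_nt.NonResonantMoments

/-- the open upper half plane -/
def HH : Set ℂ := {z | 0 < z.im}

/-- the Laplacian `∂x² + ∂y²` -/
noncomputable def lapl (f : ℂ → ℝ) (z : ℂ) : ℝ :=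
  fderiv ℝ (fun w => fderiv ℝ f w 1) z 1 + fderiv ℝ (fun w => fderiv ℝ f w I) z I

/-- `f` is a smooth real solution of `-y² (∂x² + ∂y²) f = (1/4 + t²) f` on the upper half plane -/
def Eig (t : ℝ) (f : ℂ → ℝ) : Prop :=
  ContDiffOn ℝ ∞ f HH ∧ ∀ z ∈ HH, -(z.im ^ 2 * lapl f z) = (1 / 4 + t ^ 2) * f z

/-- the sequence `f` is locally bounded in `L²` -/
def LocL2 (f : ℕ → ℂ → ℝ) : Prop :=
  ∀ K : Set ℂ, IsCompact K → K ⊆ HH → ∃ C : ℝ, ∀ᶠ n in atTop, ∫ z in K, f n z ^ 2 ≤ C

/-- test functions: smooth, with compact support contained in the upper half plane -/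
def Test (ψ : ℂ → ℝ) : Prop := ContDiff ℝ ∞ ψ ∧ HasCompactSupport ψ ∧ tsupport ψ ⊆ HH

theorem sol_of {t : ℝ} {f : ℂ → ℝ} (h : Eig t f) :
    Pool.Agent.K1H18.NR.Sol t (fun z => (f z : ℂ)) := by
  refine ⟨Complex.ofRealCLM.contDiff.comp_contDiffOn h.1, fun z hz => ?_⟩
  have e := Pool.Agent.K1H18.NR.lap_re h.1 hz
  have h2 := h.2 z hz
  rw [e]
  show -((z.im : ℂ) ^ 2 * ((lapl f z : ℝ) : ℂ)) = ((1 / 4 + t ^ 2 : ℝ) : ℂ) * (f z : ℂ)
  rw [← Complex.ofReal_pow, ← Complex.ofReal_mul, ← Complex.ofReal_neg, ← Complex.ofReal_mul, h2]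

/-- **Joint moments in the non-resonant range.** Let `f_n` have the spectral parameter `t_n ≥ 0`,
`t_n → ∞`, and let `g_{i,n}` have the spectral parameters `s_{i,n} ≥ 0`, for `i < m`. If
`(t_n - ∑ a_i s_{i,n}) / √(t_n log t_n) → ∞` then `t_n ^ A ∫ ψ f_n ∏ g_{i,n} ^ a_i dμ → 0` for every
test function `ψ` and every `A`. -/
theorem result (m : ℕ) (a : Fin m → ℕ) (t : ℕ → ℝ) (s : Fin m → ℕ → ℝ) (f : ℕ → ℂ → ℝ)
    (g : Fin m → ℕ → ℂ → ℝ) (ht : Tendsto t atTop atTop) (ht0 : ∀ n, 0 ≤ t n)
    (hs0 : ∀ i n, 0 ≤ s i n) (hf : ∀ n, Eig (t n) (f n)) (hg : ∀ i n, Eig (s i n) (g i n))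
    (hfb : LocL2 f) (hgb : ∀ i, LocL2 (g i))
    (hgap : Tendsto (fun n => (t n - ∑ i, (a i : ℝ) * s i n) / √(t n * Real.log (t n)))
      atTop atTop) :
    ∀ ψ : ℂ → ℝ, Test ψ → ∀ A : ℕ,
      Tendsto (fun n => t n ^ A * ∫ z, ψ z * (f n z * ∏ i, g i n z ^ a i) / z.im ^ 2)
        atTop (𝓝 0) :=
  fun ψ hψ A => Pool.Agent.K1H18.NR.main m a t s f g ht ht0 hs0 (fun n => sol_of (hf n))
    (fun i n => sol_of (hg i n)) hfb hgb hgap ψ hψ.1 hψ.2.1 hψ.2.2 A

end Pool.Agent.Results.MP_a28cf0_nt.NonResonantMoments
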