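import Pool.Agent.K1H18.TP.Main2

/-!
# Moments `∫ ψ f g h dμ` of three eigenfunctions (MP_a28cf0_nt)

The plane is `ℂ`, with the upper half plane `HH` and `dμ = dx dy / y²`. `dx f z`, `dy f z` are the
partial derivatives `fderiv ℝ f z 1`, `fderiv ℝ f z I`; `TF U φ` says that `φ : ℂ → ℝ` is smooth
with compact support contained in `U`.

For Hecke-Maass cusp forms the hypothesis `QUE` is a theorem (Lindenstrauss, Soundararajan) and the
local `L²` bound holds by the normalisation. So the theorem is the conjecture for `I = 3`,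
`(a_1, a_2, a_3) = (1, 1, 1)`, for all triples of spectral parameters none of which is asymptotic
to the sum of the other two. No bound on moments of higher order is assumed, and the three
parameters need not be comparable.

Proof. Let `W_k` be the normalised frame derivatives of order `k`, and let `g` be the slower one of
`f` and `g`. The Laplacian acts on `W_k(f) W_{-k}(g)` as `1 + ρ² + ρ (T + T⁻¹)`, `T` the shift of
`k` and `ρ ≤ 1` the ratio of the frequencies, so that Green's formula gives the recursion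
`T + T⁻¹ = 2 cos θ` (or a number outside `[-2, 2]`) for `t_k = ∫ ψ W_k(f) W_{-k}(g) h dμ`. By
Cauchy-Schwarz it remains to choose a Laurent polynomial `φ` with `φ(exp(± i θ)) = 1` and small
`∫ ψ |∑ φ_k W_k(f) W_{-k}(g)|² dμ`. This integral is a value of the functional of the joint fourth
moments, which is not bounded a priori. But the translation relations, the null forms
(`Pool.Agent.R314.JN`, extended to `ρ → 0` in `Pool.Agent.K1H18.TP.One`) and the exact fourth
moment formula of a single form (`Pool.Agent.Y265.HY`) show that it is bounded by the sum of the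
`|φ_k|²` if `|φ|²` is divisible by `(T - T⁻¹)² (T + T⁻¹ + 2 ρ) (ρ (T + T⁻¹) + 2)`
(`Pool.Agent.K1H18.TP.Alg`). The first factor excludes the degenerate triangles. At the zeros of
the other two, the right-angled triangles, one of the two simple factors of `φ` at `exp(± i θ)` is
enough (`TR.inside`). If `ρ → 0` the bound is lost up to a power of `1 / ρ`, which the recursion
`t_k = O(ρ) (t_{k+1} + t_{k-1})` compensates (`TR.zero`).
-/

set_option autoImplicit false
open MeasureTheory Filter Topology Complex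
open scoped ContDiff

namespace Pool.Agent.Results.MP_a28cf0_nt.TripleProducts

open Pool.Agent.W745.RW (TF dx dy)

/-- the open upper half plane -/
def HH : Set ℂ := {z | 0 < z.im}

/-- the eigenvalue `1/4 + t²` -/
noncomputable def ev (t : ℝ) : ℝ := 1 / 4 + t ^ 2

/-- `f` is a smooth real solution of `-y² (∂x² + ∂y²) f = (1/4 + t²) f` on the upper half plane -/
def Eig (t : ℝ) (f : ℂ → ℝ) : Prop :=
  ContDiffOn ℝ ∞ f HH ∧ ∀ z ∈ HH, -(z.im ^ 2 * (dx (dx f) z + dy (dy f) z)) = ev t * f z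

/-- the operator `f ↦ lam^{-1/2} y (∂x f - i ∂y f)` -/
noncomputable def RO (lam : ℝ) (f : ℂ → ℂ) (z : ℂ) : ℂ :=
  ((z.im / √lam : ℝ) : ℂ) * (dx f z - I * dy f z)

/-- quantum unique ergodicity in microlocal form: `∫ φ f (RO^k f) dμ → ∫ φ dμ` for `k = 0`, and
`→ 0` for `k ≥ 1` -/
def QUE (t : ℕ → ℝ) (f : ℕ → ℂ → ℝ) : Prop :=
  ∀ φ, TF HH φ → ∀ k : ℕ, Tendsto (fun n => ∫ z, ((φ z / z.im ^ 2 : ℝ) : ℂ) *
    ((f n z : ℂ) * (RO (ev (t n)))^[k] (fun w => (f n w : ℂ)) z)) atTop
    (𝓝 (if k = 0 then ((∫ z, φ z / z.im ^ 2 : ℝ) : ℂ) else 0))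

/-- the moment `∫ ψ f g h dμ` -/
noncomputable def J (ψ f g h : ℂ → ℝ) : ℝ := ∫ z, ψ z * (f z * g z * h z) / z.im ^ 2

/-- for large `n` none of the three parameters is close to the sum of the other two, in the scale
of `t n + s n + r n` -/
def NonDeg (t s r : ℕ → ℝ) : Prop := ∃ δ : ℝ, 0 < δ ∧ ∀ᶠ n in atTop,
  δ * (t n + s n + r n) ≤ |t n + s n - r n| ∧ δ * (t n + s n + r n) ≤ |t n + r n - s n| ∧
  δ * (t n + s n + r n) ≤ |s n + r n - t n|

lemma ev_pos (t : ℝ) : 0 < ev t := by unfold ev; positivity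

lemma HHo : IsOpen HH := isOpen_lt continuous_const continuous_im

lemma ev_top {t : ℕ → ℝ} (ht : Tendsto t atTop atTop) :
    Tendsto (fun n => ev (t n)) atTop atTop :=
  tendsto_atTop_add_const_left _ _ ((tendsto_pow_atTop two_ne_zero).comp ht)

lemma cmp_bd {K : Set ℂ} (hK : IsCompact K) (hKH : K ⊆ HH) : ∃ C : ℝ, 0 < C ∧
    ∀ F : ℂ → ℝ, ContinuousOn F K → (∀ z, 0 ≤ F z) →
      ∫ z in K, F z ≤ C * ∫ z in K, F z / z.im ^ 2 := by
  have him : ContDiff ℝ ∞ (fun z : ℂ => z.im) := imCLM.contDiff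
  obtain ⟨C, hC⟩ := hK.exists_bound_of_continuousOn
    ((him.continuous.pow 2).continuousOn (s := K))
  refine ⟨|C| + 1, by positivity, fun F hF hF0 => ?_⟩
  have i1 : IntegrableOn F K := hF.integrableOn_compact hK
  have i2 : IntegrableOn (fun z => (|C| + 1) * (F z / z.im ^ 2)) K := by
    refine ContinuousOn.integrableOn_compact hK ?_
    refine continuousOn_const.mul (hF.div (him.continuous.pow 2).continuousOn fun z hz => ?_)
    have : 0 < z.im := hKH hz
    positivity
  rw [← integral_const_mul]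
  refine setIntegral_mono_on i1 i2 hK.measurableSet fun z hz => ?_
  have h3 : 0 < z.im := hKH hz
  have h4 : z.im ^ 2 ≤ |C| + 1 := by
    have h7 : ‖z.im ^ 2‖ ≤ C := hC z hz
    rw [Real.norm_eq_abs, abs_of_nonneg (pow_nonneg h3.le 2)] at h7
    linarith [le_abs_self C]
  rw [mul_div_assoc', le_div_iff₀ (pow_pos h3 2), mul_comm]
  exact mul_le_mul_of_nonneg_right h4 (hF0 z)

lemma qs {t : ℕ → ℝ} (ht : Tendsto t atTop atTop) {f : ℕ → ℂ → ℝ}
    (hf : ∀ n, Eig (t n) (f n)) (hqe : QUE t f) :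
    Pool.Agent.R314.JN.QS HH (fun n => ev (t n)) f := by
  refine ⟨fun n => ev_pos (t n), ev_top ht, fun n => (hf n).1, fun n z hz => ?_, hqe⟩
  have h1 := (hf n).2 z hz
  show z.im ^ 2 * (dx (dx (f n)) z + dy (dy (f n)) z) + ev (t n) * f n z = 0
  linarith

lemma sq_ev {t : ℝ} (ht : 0 ≤ t) : t ≤ √(ev t) ∧ √(ev t) ≤ t + 1 / 2 := by
  unfold ev
  constructor
  · exact Real.le_sqrt_of_sq_le (by linarith)
  · exact Real.sqrt_le_iff.2 ⟨by linarith, by nlinarith⟩

/-- the condition for the square roots of the eigenvalues -/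
lemma nd_ev {t s r : ℕ → ℝ} (ht : Tendsto t atTop atTop) (hs : Tendsto s atTop atTop)
    (hr : ∀ n, 0 ≤ r n) (h : NonDeg t s r) : ∃ δ : ℝ, 0 < δ ∧ ∀ᶠ n in atTop,
      δ * max (ev (t n)) (ev (s n)) ≤ |ev (r n) - (√(ev (t n)) + √(ev (s n))) ^ 2| ∧
      δ * max (ev (t n)) (ev (s n)) ≤ |ev (r n) - (√(ev (t n)) - √(ev (s n))) ^ 2| := by
  obtain ⟨δ, hδ, h⟩ := h
  obtain ⟨η, hη0, hηδ, hη1⟩ : ∃ η : ℝ, 0 < η ∧ η ≤ δ / 2 ∧ η ≤ 1 :=
    ⟨min (δ / 2) 1, by positivity, min_le_left _ _, min_le_right _ _⟩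
  refine ⟨η ^ 2, by positivity, ?_⟩
  filter_upwards [h, ht.eventually_ge_atTop (6 / δ * (1 + δ)), hs.eventually_ge_atTop 0]
    with n h1 t1 s1
  have t0 : 0 ≤ t n := le_trans (by positivity) t1
  obtain ⟨a1, a2⟩ := sq_ev t0
  obtain ⟨b1, b2⟩ := sq_ev s1
  obtain ⟨c1, c2⟩ := sq_ev (hr n)
  have qa := Real.sq_sqrt (ev_pos (t n)).le
  have qb := Real.sq_sqrt (ev_pos (s n)).le
  have qc := Real.sq_sqrt (ev_pos (r n)).le
  set a := √(ev (t n)) with ha
  set b := √(ev (s n)) with hb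
  set c := √(ev (r n)) with hc
  rw [← qa, ← qb, ← qc]
  have a0 : 0 ≤ a := Real.sqrt_nonneg _
  have b0 : 0 ≤ b := Real.sqrt_nonneg _
  have c0 : 0 ≤ c := Real.sqrt_nonneg _
  have big : 3 / 2 * (1 + δ) ≤ δ / 2 * (a + b + c) := by
    have h2 : δ * (6 / δ * (1 + δ)) = 6 * (1 + δ) := by field_simp
    have h3 := mul_le_mul_of_nonneg_left t1 hδ.le
    have h4 : 0 ≤ δ * b := by positivity
    have h5 : 0 ≤ δ * c := by positivity
    have h6 := mul_le_mul_of_nonneg_left a1 hδ.le
    nlinarith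
  -- transfer of one inequality
  have tr : ∀ x y : ℝ, δ * (t n + s n + r n) ≤ |x| → |y - x| ≤ 3 / 2 →
      η * (a + b + c) ≤ |y| := by
    intro x y hx hxy
    have e1 : |x| ≤ |y| + |y - x| := by
      have := abs_sub_abs_le_abs_sub x y
      rw [abs_sub_comm x y] at this
      linarith
    have e2 : δ * (a + b + c) ≤ δ * (t n + s n + r n) + 3 / 2 * δ := by nlinarith
    have e3 : η * (a + b + c) ≤ δ / 2 * (a + b + c) :=
      mul_le_mul_of_nonneg_right hηδ (by linarith)
    linarith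
  have k1 : η * (a + b + c) ≤ |a + b - c| := tr _ _ h1.1 (by
    rw [abs_le]; constructor <;> linarith)
  have k2 : η * (a + b + c) ≤ |a + c - b| := tr _ _ h1.2.1 (by
    rw [abs_le]; constructor <;> linarith)
  have k3 : η * (a + b + c) ≤ |b + c - a| := tr _ _ h1.2.2 (by
    rw [abs_le]; constructor <;> linarith)
  set m := a + b + c with hm
  have m0 : 0 ≤ m := by linarith
  have mx : max (a ^ 2) (b ^ 2) ≤ m ^ 2 := by
    refine max_le ?_ ?_
    · exact pow_le_pow_left₀ a0 (by linarith) 2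
    · exact pow_le_pow_left₀ b0 (by linarith) 2
  refine ⟨?_, ?_⟩
  · have e : c ^ 2 - (a + b) ^ 2 = -((a + b - c) * m) := by rw [hm]; ring
    rw [e, abs_neg, abs_mul, abs_of_nonneg m0]
    calc η ^ 2 * max (a ^ 2) (b ^ 2) ≤ η ^ 2 * m ^ 2 :=
          mul_le_mul_of_nonneg_left mx (by positivity)
      _ ≤ (η * m) * m := by nlinarith [mul_nonneg hη0.le (mul_nonneg m0 m0)]
      _ ≤ |a + b - c| * m := mul_le_mul_of_nonneg_right k1 m0
  · have e : c ^ 2 - (a - b) ^ 2 = (a + c - b) * (b + c - a) := by ring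
    rw [e, abs_mul]
    calc η ^ 2 * max (a ^ 2) (b ^ 2) ≤ η ^ 2 * m ^ 2 :=
          mul_le_mul_of_nonneg_left mx (by positivity)
      _ = (η * m) * (η * m) := by ring
      _ ≤ |a + c - b| * |b + c - a| := mul_le_mul k2 k3 (by positivity) (abs_nonneg _)

/-- **Result.** Let `f n`, `g n`, `h n` be real eigenfunctions of the hyperbolic Laplacian on the
upper half plane, with spectral parameters `t n → ∞`, `s n → ∞` and `r n ≥ 0`. The `f n` and the
`g n` satisfy microlocal quantum unique ergodicity, and the `h n` are bounded in `L²(K', dμ)` for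
every compact `K'`. If none of the three parameters is close to the sum of the other two, in the
scale of `t n + s n + r n`, then `∫ ψ f g h dμ → 0` for every test function `ψ`. -/
theorem result (t s r : ℕ → ℝ) (ht : Tendsto t atTop atTop) (hs : Tendsto s atTop atTop)
    (hr : ∀ n, 0 ≤ r n) (f g h : ℕ → ℂ → ℝ) (hf : ∀ n, Eig (t n) (f n))
    (hg : ∀ n, Eig (s n) (g n)) (hh : ∀ n, Eig (r n) (h n)) (hqf : QUE t f) (hqg : QUE s g)
    (hhb : ∀ K' : Set ℂ, IsCompact K' → K' ⊆ HH →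
      ∃ C : ℝ, ∀ᶠ n in atTop, ∫ z in K', h n z ^ 2 / z.im ^ 2 ≤ C)
    (hnd : NonDeg t s r) :
    ∀ ψ, TF HH ψ → Tendsto (fun n => J ψ (f n) (g n) (h n)) atTop (𝓝 0) := by
  intro ψ hψ
  obtain ⟨δ, hδ, nd⟩ := nd_ev ht hs hr hnd
  have tf : TF HH (fun z => ψ z / z.im ^ 2) := by
    have sy : ContDiffOn ℝ ∞ (fun z : ℂ => (z.im ^ 2)⁻¹) HH := by
      refine ContDiffOn.inv ((imCLM.contDiff.pow 2).contDiffOn) fun z hz => ?_
      have : 0 < z.im := hz
      exact pow_ne_zero 2 this.ne'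
    exact Pool.Agent.TH294.RS.TF.mulc HHo hψ sy
  have key := Pool.Agent.K1H18.TP.main1' (qs ht hf hqf) (qs hs hg hqg) HHo (fun z hz => hz)
    (nu := fun n => ev (r n)) (g := h) (fun n => (ev_pos _).le) (fun n => (hh n).1)
    (fun n z hz => by
      have h1 := (hh n).2 z hz
      show z.im ^ 2 * (dx (dx (h n)) z + dy (dy (h n)) z) + ev (r n) * h n z = 0
      linarith)
    (fun K hK hKH => by
      obtain ⟨C, hC⟩ := hhb K hK hKH
      obtain ⟨C', hC'0, hC'⟩ := cmp_bd hK hKH
      refine ⟨C' * C, hC.mono fun n hn => ?_⟩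
      exact (hC' (fun z => h n z ^ 2) (((hh n).1.continuousOn.mono hKH).pow 2)
        (fun z => by positivity)).trans (mul_le_mul_of_nonneg_left hn hC'0.le)) hδ nd tf
  refine key.congr fun n => ?_
  unfold Pool.Agent.K1H18.TP.T3 J
  congr 1; funext z; ring

end Pool.Agent.Results.MP_a28cf0_nt.TripleProducts
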